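import Pool.Agent.Helper60.FF.DefsA

/-!
# Module FACM: replacement of `T` by a square free polynomial without inseparable factors
-/

set_option autoImplicit false

namespace Pool.Agent.Helper60.FF

open Polynomial

section

variable {F : Type} [Field F]

/-- a fixed representative of the association class -/
noncomputable def fm_rep (s : F[X][X]) : F[X][X] := Quot.out (Associates.mk s)

theorem fm_mk_rep (s : F[X][X]) : Associates.mk (fm_rep s) = Associates.mk s :=
  Quot.out_eq _

theorem fm_rep_assoc (s : F[X][X]) : Associated (fm_rep s) s :=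
  Associates.mk_eq_mk_iff_associated.1 (fm_mk_rep s)

theorem fm_rep_rep (s : F[X][X]) : fm_rep (fm_rep s) = fm_rep s := by
  unfold fm_rep
  congr 1
  exact fm_mk_rep s

theorem fm_rep_eq {s s' : F[X][X]} (h : Associated s s') (hs : fm_rep s = s)
    (hs' : fm_rep s' = s') : s = s' := by
  rw [← hs, ← hs']
  unfold fm_rep
  congr 1
  exact Associates.mk_eq_mk_iff_associated.2 h

/-- units of `F[y][X]` are constants -/
theorem fm_unit {u : F[X][X]} (hu : IsUnit u) : ∃ c : F, c ≠ 0 ∧ u = C (C c) := by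
  obtain ⟨r, hr, rfl⟩ := Polynomial.isUnit_iff.1 hu
  obtain ⟨c, hc, rfl⟩ := Polynomial.isUnit_iff.1 hr
  exact ⟨c, hc.ne_zero, rfl⟩

theorem fm_assoc {s s' : F[X][X]} (h : Associated s s') : ∃ c : F, c ≠ 0 ∧ s' = C (C c) * s := by
  obtain ⟨u, hu⟩ := h
  obtain ⟨c, hc, h1⟩ := fm_unit u.isUnit
  exact ⟨c, hc, by rw [← hu, h1, mul_comm]⟩

theorem fm_dY_mul (A B : F[X][X]) : dY (A * B) = dY A * B + A * dY B := by
  ext1 j
  rw [coeff_dY, coeff_add, coeff_mul, coeff_mul, coeff_mul, derivative_sum, ← Finset.sum_add_distrib]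
  refine Finset.sum_congr rfl fun x _ => ?_
  rw [derivative_mul, coeff_dY, coeff_dY]

theorem fm_dY_C_mul (c : F) (A : F[X][X]) : dY (C (C c) * A) = C (C c) * dY A := by
  ext1 j
  rw [coeff_dY, coeff_C_mul, coeff_C_mul, coeff_dY, derivative_C_mul]

/-- a polynomial does not divide its `y`-derivative -/
theorem fm_not_dvd {r : F[X][X]} (h : r ∣ dY r) : dY r = 0 := by
  by_contra hne
  obtain ⟨q, hq⟩ := h
  have hr : r ≠ 0 := by
    rintro rfl
    rw [zero_mul] at hq
    exact hne hq
  have hq0 : q ≠ 0 := by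
    rintro rfl
    rw [mul_zero] at hq
    exact hne hq
  have hdeg : (dY r).natDegree ≤ r.natDegree := by
    refine natDegree_le_iff_coeff_eq_zero.2 fun N hN => ?_
    rw [coeff_dY, coeff_eq_zero_of_natDegree_lt hN, derivative_zero]
  have hqd : q.natDegree = 0 := by
    rw [hq, natDegree_mul hr hq0] at hdeg
    omega
  obtain ⟨q0, rfl⟩ : ∃ q0, q = C q0 := ⟨_, eq_C_of_natDegree_eq_zero hqd⟩
  have hq00 : q0 ≠ 0 := by
    rintro rfl
    exact hq0 C_0
  obtain ⟨j, hj⟩ : ∃ j, (dY r).coeff j ≠ 0 := by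
    by_contra hcon
    push Not at hcon
    exact hne (Polynomial.ext fun j => by rw [hcon j, coeff_zero])
  have h1 : derivative (r.coeff j) = r.coeff j * q0 := by
    rw [← coeff_dY, hq, coeff_mul_C]
  rw [coeff_dY] at hj
  have h2 : r.coeff j ≠ 0 := by
    intro h
    rw [h, derivative_zero] at hj
    exact hj rfl
  have h3 : (r.coeff j).natDegree ≠ 0 := by
    intro h
    rw [eq_C_of_natDegree_eq_zero h, derivative_C] at hj
    exact hj rfl
  have h4 := natDegree_derivative_lt h3
  rw [h1, natDegree_mul h2 hq00] at h4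
  omega

/-- horizontal polynomials -/
def fm_Hor (T : F[X][X]) : Prop := ∃ φ : F[X], T = φ.map C

theorem fm_hor_mul {A B : F[X][X]} (hA : fm_Hor A) (hB : fm_Hor B) : fm_Hor (A * B) := by
  obtain ⟨a, rfl⟩ := hA
  obtain ⟨b, rfl⟩ := hB
  exact ⟨a * b, by rw [Polynomial.map_mul]⟩

theorem fm_hor_or (T : F[X][X]) : fm_Hor T ∨ ∃ j, 0 < (T.coeff j).natDegree := by
  by_cases h : ∃ j, 0 < (T.coeff j).natDegree
  · exact Or.inr h
  · left
    push Not at h
    refine ⟨T.map (evalRingHom 0), ?_⟩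
    ext1 j
    rw [coeff_map, coeff_map]
    have h1 := eq_C_of_natDegree_le_zero (h j)
    rw [h1]
    simp

theorem fm_not_hor {T : F[X][X]} (hT : fm_Hor T) : ¬ ∃ j, 0 < (T.coeff j).natDegree := by
  obtain ⟨φ, rfl⟩ := hT
  rintro ⟨j, hj⟩
  rw [coeff_map, natDegree_C] at hj
  exact lt_irrefl _ hj

/-- the factorization data -/
theorem fm_data [IsAlgClosed F] (hF : ST_FROB) (p : ℕ) (hp : p.Prime) (hc : CharP F p)
    (fs : Multiset F[X][X]) (h1 : ∀ χ ∈ fs, Irreducible χ) (h2 : ∀ χ ∈ fs, 0 < χ.natDegree) :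
    ∃ L : Multiset (F[X][X] × ℕ),
      (∀ x ∈ L, Irreducible x.1 ∧ fm_rep x.1 = x.1 ∧ 0 < x.1.natDegree ∧ dY x.1 ≠ 0) ∧
      (L.map fun x => x.1.natDegree).sum ≤ fs.prod.natDegree ∧ (L = 0 → fm_Hor fs.prod) ∧
      ∀ i : ℕ, ∃ c : F, fs.prod.eval (i : F[X]) =
        C c * (L.map fun x => (x.1.eval (i : F[X])) ^ (p ^ x.2)).prod := by
  induction fs using Multiset.induction_on with
  | empty =>
    refine ⟨0, by simp, by simp, fun _ => ⟨1, by simp⟩, fun i => ⟨1, by simp⟩⟩
  | cons χ fs ih =>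
    obtain ⟨L, l1, l2, l3, l4⟩ := ih (fun x hx => h1 x (Multiset.mem_cons_of_mem hx))
      (fun x hx => h2 x (Multiset.mem_cons_of_mem hx))
    have hχ := h1 χ (Multiset.mem_cons_self _ _)
    have hfs : fs.prod ≠ 0 := by
      intro h
      exact (h1 0 (Multiset.mem_cons_of_mem (Multiset.prod_eq_zero_iff.1 h))).ne_zero rfl
    rw [Multiset.prod_cons]
    rcases fm_hor_or χ with hh | hh
    · refine ⟨L, l1, ?_, ?_, ?_⟩
      · rw [natDegree_mul hχ.ne_zero hfs]; omega
      · intro h0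
        exact fm_hor_mul hh (l3 h0)
      · intro i
        obtain ⟨c, hci⟩ := l4 i
        obtain ⟨φ, rfl⟩ := hh
        refine ⟨φ.eval (i : F) * c, ?_⟩
        rw [eval_mul, hci, eval_natCast_map, C_mul, mul_assoc]
    · obtain ⟨S, a, s1, s2, s3, s4⟩ := hF F p hp hc χ hχ hh
      obtain ⟨c0, hc0, hS⟩ := fm_assoc (fm_rep_assoc S)
      have hd : (fm_rep S).natDegree = χ.natDegree := by
        rw [← s2]
        conv_rhs => rw [hS]
        rw [natDegree_C_mul (C_ne_zero.2 hc0)]
      refine ⟨(fm_rep S, a) ::ₘ L, ?_, ?_, ?_, ?_⟩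
      · intro x hx
        rcases Multiset.mem_cons.1 hx with rfl | hx
        · refine ⟨(fm_rep_assoc S).symm.irreducible s1, fm_rep_rep S, ?_, ?_⟩
          · change 0 < (fm_rep S).natDegree
            rw [hd]; exact h2 χ (Multiset.mem_cons_self _ _)
          · change dY (fm_rep S) ≠ 0
            intro h0
            apply s3
            rw [hS, fm_dY_C_mul, h0, mul_zero]
        · exact l1 x hx
      · rw [Multiset.map_cons, Multiset.sum_cons, natDegree_mul hχ.ne_zero hfs]
        change (fm_rep S).natDegree + _ ≤ _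
        rw [hd]; omega
      · intro h0
        exact absurd h0 (Multiset.cons_ne_zero)
      · intro i
        obtain ⟨c, hci⟩ := l4 i
        refine ⟨c0 ^ (p ^ a) * c, ?_⟩
        rw [Multiset.map_cons, Multiset.prod_cons, eval_mul, hci, s4 i]
        conv_lhs => rw [hS]
        rw [eval_mul, eval_C, mul_pow, C_mul, C_pow]
        ring

theorem fm_sp_ne {r : F[X][X]} (hr : Irreducible r) (hd : 0 < r.natDegree) (w : F) :
    sp w r ≠ 0 := by
  intro h
  have h1 : C (X - C w) ∣ r := by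
    rw [C_dvd_iff_dvd_coeff]
    intro j
    rw [dvd_iff_isRoot, IsRoot.def]
    have := congrArg (fun q : F[X] => q.coeff j) h
    unfold sp at this
    simpa [coeff_map] using this
  have h2 : ¬ IsUnit (C (X - C w) : F[X][X]) := by
    rw [isUnit_C]
    exact not_isUnit_X_sub_C w
  obtain ⟨q, hq⟩ := h1
  rcases hr.isUnit_or_isUnit hq with h3 | h3
  · exact h2 h3
  · obtain ⟨c, hc, rfl⟩ := fm_unit h3
    rw [hq, ← C_mul, natDegree_C] at hd
    exact lt_irrefl _ hd

theorem fm_mult_prod {α : Type} (L : Multiset α) (g : α → F[X]) (hg : ∀ x ∈ L, g x ≠ 0) (w : F) :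
    (L.map g).prod.rootMultiplicity w = (L.map fun x => (g x).rootMultiplicity w).sum := by
  classical
  induction L using Multiset.induction_on with
  | empty => simp
  | cons x L ih =>
    have ih' := ih fun y hy => hg y (Multiset.mem_cons_of_mem hy)
    have h0 : (L.map g).prod ≠ 0 := by
      intro h
      obtain ⟨y, hy, hy0⟩ := Multiset.mem_map.1 (Multiset.prod_eq_zero_iff.1 h)
      exact hg y (Multiset.mem_cons_of_mem hy) hy0
    rw [Multiset.map_cons, Multiset.prod_cons, Multiset.map_cons, Multiset.sum_cons,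
      rootMultiplicity_mul (mul_ne_zero (hg x (Multiset.mem_cons_self _ _)) h0), ih']

theorem fm_mult_pow {g : F[X]} (hg : g ≠ 0) (w : F) (k : ℕ) :
    (g ^ k).rootMultiplicity w = k * g.rootMultiplicity w := by
  induction k with
  | zero => simp
  | succ k ih =>
    rw [pow_succ, rootMultiplicity_mul (mul_ne_zero (pow_ne_zero _ hg) hg), ih]; ring

theorem fm_pow_mod {p l : ℕ} (hp : p.Prime) (hl : l ∣ p - 1) (a : ℕ) : p ^ a ≡ 1 [MOD l] := by
  have h1 : p ≡ 1 [MOD l] := ((Nat.modEq_iff_dvd' hp.one_lt.le).2 hl).symm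
  simpa using h1.pow a

theorem fm_count {α : Type} [DecidableEq α] {p l : ℕ} (hp : p.Prime) (hl : l ∣ p - 1) (r0 : α)
    (L : Multiset (α × ℕ)) (f : α → ℕ) (hf : ∀ x ∈ L, f x.1 = if x.1 = r0 then 1 else 0) :
    (L.map fun x => p ^ x.2 * f x.1).sum ≡ L.countP (fun x => x.1 = r0) [MOD l] := by
  induction L using Multiset.induction_on with
  | empty => simp; rfl
  | cons x L ih =>
    have ih' := ih fun y hy => hf y (Multiset.mem_cons_of_mem hy)
    rw [Multiset.map_cons, Multiset.sum_cons, Multiset.countP_cons, add_comm]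
    refine ih'.add ?_
    rw [hf x (Multiset.mem_cons_self _ _)]
    split_ifs with h
    · rw [mul_one]; exact fm_pow_mod hp hl _
    · rw [mul_zero]

end

theorem st_FACM (hF : ST_FROB) : ST_FACM := by
  classical
  intro F _ _ p n l hp hc hl hnl T hTn hT0 hTh
  have hTne : T ≠ 0 := by
    rintro rfl
    exact hT0 0 (by simp [sp])
  obtain ⟨fs, hf1, hf2⟩ := WfDvdMonoid.exists_factors T hTne
  obtain ⟨u, hu, hTu⟩ := fm_assoc hf2
  have hfd : ∀ χ ∈ fs, 0 < χ.natDegree := by
    intro χ hχ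
    by_contra h
    have h0 : χ.natDegree = 0 := by omega
    obtain ⟨q, rfl⟩ : ∃ q, χ = C q := ⟨_, eq_C_of_natDegree_eq_zero h0⟩
    have hirr := hf1 _ hχ
    have hq0 : q ≠ 0 := by
      rintro rfl
      exact hirr.ne_zero C_0
    have hqd : q.degree ≠ 0 := by
      intro h1
      refine hirr.not_isUnit ?_
      rw [isUnit_C]
      exact isUnit_iff_degree_eq_zero.2 h1
    obtain ⟨w, hw⟩ := IsAlgClosed.exists_root q hqd
    apply hT0 w
    have h2 : sp w (C q) = 0 := by
      unfold sp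
      rw [map_C]
      have : (evalRingHom w) q = 0 := hw
      rw [this, C_0]
    obtain ⟨Q, hQ⟩ : C q ∣ T := (Multiset.dvd_prod hχ).trans hf2.dvd
    have h3 : sp w T = sp w (C q) * sp w Q := by
      unfold sp
      rw [← Polynomial.map_mul, ← hQ]
    rw [h3, h2, zero_mul]
  obtain ⟨L, l1, l2, l3, l4⟩ := fm_data hF p hp hc fs hf1 hfd
  have hdeg : (L.map fun x => x.1.natDegree).sum ≤ n := by
    refine l2.trans (le_trans ?_ hTn)
    rw [hTu, natDegree_C_mul (C_ne_zero.2 hu)]
  have hL0 : L ≠ 0 := by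
    intro h
    refine fm_not_hor (T := T) ?_ hTh
    rw [hTu]
    exact fm_hor_mul ⟨C u, by rw [map_C]⟩ (l3 h)
  have hcard : Multiset.card L ≤ n := by
    refine le_trans ?_ hdeg
    have h1 : Multiset.card L = (L.map fun _ => 1).sum := by simp
    rw [h1]
    exact Multiset.sum_map_le_sum_map _ _ fun x hx => (l1 x hx).2.2.1
  set R : Finset F[X][X] := (L.map Prod.fst).toFinset with hR
  have hRm : ∀ r ∈ R, ∃ x ∈ L, x.1 = r := by
    intro r hr
    rw [hR, Multiset.mem_toFinset, Multiset.mem_map] at hr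
    exact hr
  have hmR : ∀ x ∈ L, x.1 ∈ R := by
    intro x hx
    rw [hR, Multiset.mem_toFinset, Multiset.mem_map]
    exact ⟨x, hx, rfl⟩
  have hRi : ∀ r ∈ R, Irreducible r ∧ fm_rep r = r ∧ 0 < r.natDegree ∧ dY r ≠ 0 := by
    intro r hr
    obtain ⟨x, hx, rfl⟩ := hRm r hr
    exact l1 x hx
  have hdvd : ∀ r ∈ R, ∀ r' ∈ R, r ∣ r' → r = r' := by
    intro r hr r' hr' h
    have h1 : Associated r r' := (hRi r hr).1.associated_of_dvd (hRi r' hr').1 h
    exact fm_rep_eq h1 (hRi r hr).2.1 (hRi r' hr').2.1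
  set S : F[X][X] := ∏ r ∈ R, r with hS
  have hS0 : S ≠ 0 := Finset.prod_ne_zero_iff.2 fun r hr => (hRi r hr).1.ne_zero
  have hSd : S.natDegree ≤ n := by
    rw [hS, natDegree_prod _ _ fun r hr => (hRi r hr).1.ne_zero]
    refine le_trans ?_ hdeg
    have h1 : (L.map fun x => x.1.natDegree) = (L.map Prod.fst).map natDegree := by
      rw [Multiset.map_map]; rfl
    rw [h1, hR]
    have h2 : ∑ r ∈ (L.map Prod.fst).toFinset, r.natDegree
        = ((L.map Prod.fst).dedup.map natDegree).sum := rfl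
    rw [h2]
    obtain ⟨v, hv⟩ := Multiset.le_iff_exists_add.1 (Multiset.dedup_le (L.map Prod.fst))
    conv_rhs => rw [hv]
    rw [Multiset.map_add, Multiset.sum_add]
    exact Nat.le_add_right _ _
  have hsep : ∀ G : F[X][X], G ∣ S → G ∣ dY S → G.natDegree = 0 := by
    intro G hG1 hG2
    by_contra hne
    have hG0 : G ≠ 0 := by
      rintro rfl
      exact hS0 (zero_dvd_iff.1 hG1)
    have hGu : ¬ IsUnit G := by
      intro h
      obtain ⟨c, hc, rfl⟩ := fm_unit h
      exact hne (natDegree_C _)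
    obtain ⟨g, hg, hgG⟩ := WfDvdMonoid.exists_irreducible_factor hGu hG0
    have hgp : Prime g := hg.prime
    obtain ⟨r, hr, hgr⟩ := (Prime.dvd_finsetProd_iff hgp _).1 (hgG.trans hG1)
    have hrg : r ∣ g := (hg.associated_of_dvd (hRi r hr).1 hgr).symm.dvd
    have hrdS : r ∣ dY S := hrg.trans (hgG.trans hG2)
    have hrp : Prime r := (hRi r hr).1.prime
    have h1 : S = r * ∏ r' ∈ R.erase r, r' := by
      rw [hS, Finset.mul_prod_erase R (fun r => r) hr]
    rw [h1, fm_dY_mul] at hrdS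
    have h2 : r ∣ dY r * ∏ r' ∈ R.erase r, r' :=
      (dvd_add_left (dvd_mul_right r _)).1 hrdS
    rcases hrp.dvd_or_dvd h2 with h3 | h3
    · exact (hRi r hr).2.2.2 (fm_not_dvd h3)
    · obtain ⟨r', hr', h4⟩ := (Prime.dvd_finsetProd_iff hrp _).1 h3
      rw [Finset.mem_erase] at hr'
      exact hr'.1 (hdvd r hr r' hr'.2 h4).symm
  obtain ⟨x0, hx0⟩ := Multiset.exists_mem_of_ne_zero hL0
  have hSpos : 0 < S.natDegree := by
    rw [hS, natDegree_prod _ _ fun r hr => (hRi r hr).1.ne_zero]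
    refine lt_of_lt_of_le (l1 x0 hx0).2.2.1 ?_
    exact Finset.single_le_sum (f := fun r : F[X][X] => r.natDegree) (fun _ _ => Nat.zero_le _)
      (hmR x0 hx0)
  refine ⟨S, hSd, ?_, ?_, hsep, ?_⟩
  · intro w
    have h1 : sp w S = ∏ r ∈ R, sp w r := by
      unfold sp
      rw [hS, Polynomial.map_prod]
    rw [h1]
    exact Finset.prod_ne_zero_iff.2 fun r hr => fm_sp_ne (hRi r hr).1 (hRi r hr).2.2.1 w
  · rcases fm_hor_or S with h | h
    · exfalso
      have h1 : dY S = 0 := by
        ext1 j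
        obtain ⟨φ, hφ⟩ := h
        rw [coeff_dY, hφ, coeff_map, derivative_C, coeff_zero]
      have := hsep S dvd_rfl (by rw [h1]; exact dvd_zero _)
      omega
    · exact h
  · intro i hi
    obtain ⟨c, hci⟩ := l4 i
    have hTi : T.eval (i : F[X]) = C (u * c) *
        (L.map fun x => (x.1.eval (i : F[X])) ^ (p ^ x.2)).prod := by
      conv_lhs => rw [hTu]
      rw [eval_mul, eval_C, hci, C_mul, mul_assoc]
    have hSi : S.eval (i : F[X]) = ∏ r ∈ R, r.eval (i : F[X]) := by
      rw [hS, eval_prod]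
    have hcne : u * c ≠ 0 := by
      intro h
      rw [hTi, h, C_0, zero_mul] at hi
      exact hi rfl
    have hne : ∀ x ∈ L, x.1.eval (i : F[X]) ≠ 0 := by
      intro x hx h
      apply hi
      rw [hTi]
      have : (0 : F[X]) ∈ L.map fun x => (x.1.eval (i : F[X])) ^ (p ^ x.2) := by
        rw [Multiset.mem_map]
        exact ⟨x, hx, by rw [h, zero_pow (pow_pos hp.pos _).ne']⟩
      rw [Multiset.prod_eq_zero this, mul_zero]
    have hneR : ∀ r ∈ R, r.eval (i : F[X]) ≠ 0 := by
      intro r hr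
      obtain ⟨x, hx, rfl⟩ := hRm r hr
      exact hne x hx
    refine ⟨?_, ?_, ?_⟩
    · rw [hSi]
      exact Finset.prod_ne_zero_iff.2 hneR
    · intro w hw h
      rw [hSi, eval_prod] at h
      obtain ⟨r, hr, hr0⟩ := Finset.prod_eq_zero_iff.1 h
      obtain ⟨x, hx, rfl⟩ := hRm r hr
      apply hw
      rw [hTi, eval_mul]
      have h1 : (x.1.eval (i : F[X])) ^ (p ^ x.2) ∣
          (L.map fun x => (x.1.eval (i : F[X])) ^ (p ^ x.2)).prod :=
        Multiset.dvd_prod (Multiset.mem_map.2 ⟨x, hx, rfl⟩)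
      obtain ⟨Q, hQ⟩ := h1
      rw [hQ, eval_mul, eval_pow, hr0, zero_pow (pow_pos hp.pos _).ne', zero_mul, mul_zero]
    · intro hall w h1
      rw [hSi] at h1
      have hsum : (∏ r ∈ R, r.eval (i : F[X])).rootMultiplicity w =
          ∑ r ∈ R, (r.eval (i : F[X])).rootMultiplicity w := by
        have := fm_mult_prod R.val (fun r : F[X][X] => r.eval (i : F[X]))
          (fun r hr => hneR r hr) w
        exact this
      rw [hsum] at h1
      obtain ⟨r0, hr0, hr0'⟩ : ∃ r ∈ R, (r.eval (i : F[X])).rootMultiplicity w ≠ 0 := by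
        by_contra hcon
        push Not at hcon
        rw [Finset.sum_eq_zero hcon] at h1
        omega
      rw [← Finset.add_sum_erase R _ hr0] at h1
      have h2 : (r0.eval (i : F[X])).rootMultiplicity w = 1 := by omega
      have h3 : ∑ r ∈ R.erase r0, (r.eval (i : F[X])).rootMultiplicity w = 0 := by omega
      have h4 := Finset.sum_eq_zero_iff.1 h3
      have hf : ∀ x ∈ L, (x.1.eval (i : F[X])).rootMultiplicity w
          = if x.1 = r0 then 1 else 0 := by
        intro x hx
        split_ifs with h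
        · rw [h, h2]
        · exact h4 x.1 (Finset.mem_erase.2 ⟨h, hmR x hx⟩)
      have h5 := fm_count hp hl r0 L (fun r => (r.eval (i : F[X])).rootMultiplicity w) hf
      have h6 := hall w
      have hpne : (L.map fun x => (x.1.eval (i : F[X])) ^ (p ^ x.2)).prod ≠ 0 := by
        intro h
        rw [hTi, h, mul_zero] at hi
        exact hi rfl
      rw [hTi, rootMultiplicity_mul (mul_ne_zero (C_ne_zero.2 hcne) hpne), rootMultiplicity_C,
        zero_add, fm_mult_prod L (fun x : F[X][X] × ℕ => (x.1.eval (i : F[X])) ^ (p ^ x.2))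
          (fun x hx => pow_ne_zero _ (hne x hx)) w] at h6
      have h7 : (L.map fun x => ((x.1.eval (i : F[X])) ^ (p ^ x.2)).rootMultiplicity w) =
          L.map fun x => p ^ x.2 * (x.1.eval (i : F[X])).rootMultiplicity w :=
        Multiset.map_congr rfl fun x hx => fm_mult_pow (hne x hx) w _
      rw [h7] at h6
      have h8 : l ∣ L.countP (fun x => x.1 = r0) := (h5.dvd_iff dvd_rfl).1 h6
      have h9 : 0 < L.countP (fun x => x.1 = r0) := by
        obtain ⟨x, hx, hxr⟩ := hRm r0 hr0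
        exact Multiset.countP_pos.2 ⟨x, hx, hxr⟩
      have h10 := Nat.le_of_dvd h9 h8
      have h11 := Multiset.countP_le_card (fun x : F[X][X] × ℕ => x.1 = r0) L
      omega

end Pool.Agent.Helper60.FF
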